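import Pool.Agent.Lib_helper74.KY.Blk.Z2

/-!
# MP_675993_lc: a consequence of the negated form of Q1 (exponential time with short advice)

If every language that is `≤_T^P`-complete for `NP` is `≤_btt^P`-complete for `NP` (in particular if
it is `≤_m^P`-complete: the negated form of Q1), then every language `L` of `E^NP` is easy for very
many input lengths, for every `ε > 0`: every interval `[n0, 2 ^ (ε n0)]` with `n0` large contains
a number `n` such that `L` is decided on the inputs of length at most `n` in time `2 ^ (O(n))` with
an advice of length at most `2 ^ (ε n)`.  In particular `E^NP ⊆ i.o.-E / 2 ^ (ε n)`.  The theorem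
holds relative to every oracle `O`; the oracle `O = fun _ => false` gives the classical statement.

Proof idea.  Let `R` be a verifier for tally inputs `0^m` whose least witnesses determine `L`: the
value `L x` can be read in the least witness of `0^m`, `m < 2 ^ (|x| + 1)` the number of `x` (the
least accepting transcript of a machine with an `NP` oracle is the right one).  Call a list `ws`
correct if its `m`-th entry is the least witness of `0^m` (or `none`), for all `m < |ws|`.  Let `K`
be `≤_m^P`-complete, and for a constant `r` let `C_r` be the set of all `(1, 0^m, u)` such that `0^m`
has a witness smaller than `u`, and all `(2, x, ws)` with `|ws| ≥ |x| ^ r` such that `ws` is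
not correct (some entry is not a witness, or there is a smaller one) or `x ∈ K`.  `C_r` is
`≤_T^P`-complete for `NP`: find the correct list by binary search, then ask `(2, x, ws)`.

(1) Keys.  By hypothesis `K ≤_btt^P C_r` for `r = 3 (c + 1)`, where `1 / c < ε`.  If one of the
queries of `z` is `(2, x, ws)` with `ws` correct and `|ws| ≥ 2 (|z| + 2) ^ c`, then `z` is a key: it
is an advice from which `L x` can be computed for all `x` with `2 ^ |x| ≤ (|z| + 2) ^ c`, in
time polynomial in `|z|`.

(2) No keys.  Suppose that there are no keys `z` with `m0 ≤ |z| ≤ 2 ^ m0`.  Then every instance `y`
of `K` with `|y| ≤ 2 ^ m0` is decided in time polynomial in `2 ^ m0` if the correct list `T` of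
length polynomial in `|y|` is given: a query `(1, 0^m, u)` is decided by `T`; a query `(2, x, ws)`
with `ws` not correct (this is seen by comparison with `T`) is answered yes; otherwise
`|x| ^ r ≤ |ws| < 2 (|y| + 2) ^ c`, so `|x| + 2 ≤ √(|y| + 2)`, and the question is whether
`x ∈ K`: recursion.  Instances shorter than `m0` are decided by exhaustive search.

(3) The least witness of `0^n` is found from the correct list `T` of length `n`.  Take `r'` so large
that (2) decides an instance `x` with `|x| ^ r' ≤ n` from `T`, and consider a `≤_btt^P`-reduction to
`C_r'` of the questions `whether 0^n has a witness < U in a given set A of nodes`.  Walk through the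
tree of possible witnesses level by level, with a set of nodes such that one of them contains a
witness `< U` if there is any.  A query `(2, x, ws)` with `n < |ws|` has as `n`-th entry a witness
`< U`, or if there is any witness `< U` then `ws` is not correct and the answer is yes; a query
`(2, x, ws)` with `|ws| ≤ n` is decided by `T` and (2); a query `(1, 0^m, u)` asks for the position
of `u` relative to an unknown number `t_m`, the least witness of `0^m`.  The number of possible
`m` is polynomial and the number of queries is bounded.  So for any constant `k`, if there are
more than polynomially many nodes (for a certain polynomial), then there are `k` sets `A_1, ..., A_k`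
of `2 ^ k` nodes that have the same `m`s in their queries, and such that for every `v ∈ {0,1}^k` there
is a node that is in `A_j` if and only if `v_j = 1`.  The unknown numbers `t_m` have at most
`(k + 1) ^ b < 2 ^ k` positions relative to the thresholds, so some vector `v` of answers to the `k`
questions is impossible, and the corresponding node can be thrown away: if it were the only one
that contains a witness `< U`, then the vector of the answers would be `v`.  So the number of nodes
stays polynomial.

(4) So if there are no keys `z` with `m0 ≤ |z| ≤ 2 ^ m0`, then all correct lists up to the length
`2 (2 ^ m0 + 2) ^ c + 2` are computed one after the other, in time polynomial in `2 ^ m0`, and no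
advice is needed for the input length `c m0`.  With `m0` about `2 ^ (n0 / c)` both cases give a
length `n` in `[n0, 2 ^ (ε n0)]`.

Definitions: machines, `Halts`, `Accepts`, `InNP`, `TuringComplete` are in
`Lib_helper74/CKF/Defs.lean`, `InENP` is in `Lib_helper74/NF/ClassesE.lean`, `BTTComplete` is in
`Lib_helper74/KY/ClassesB.lean`, `InOftenEadvice` is in `Lib_helper74/KY/ClassesO.lean`.  The
version for many-one reductions is the theorem `often_m` in `Lib_helper74/KY/Blk/Z2.lean`.
-/

set_option autoImplicit false

namespace Pool.Agent.Lib_helper74.Superseded.CollapseMakesENPCompressible

open Pool.Agent.CK

theorem result (O : Lang) (hneg : ∀ C, TuringComplete O C → BTTComplete O C)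
    (L : Lang) (hL : InENP O L) (ε : ℝ) (hε : 0 < ε) : InOftenEadvice O ε L :=
  Pool.Agent.CKP.often_b hneg ε L hε hL

end Pool.Agent.Lib_helper74.Superseded.CollapseMakesENPCompressible
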