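import Pool.Agent.Lib_helper74.NF.ENPB
import Pool.Agent.Lib_helper74.NF.ClassesE

/-!
# MP_675993_lc: a consequence of the negated form of Q1

If every language that is `≤_T^P`-complete for `NP` is `≤_m^P`-complete for `NP`, then every
language in `E^NP` is decided in time `O(2 ^ (2 ^ (ε n)))`, for every `ε > 0`.  The theorem holds
relative to every oracle `O`; the oracle `O = fun _ => false` gives the classical statement.

Proof idea.  Let `R` be an `NP` verifier for tally inputs `0^n` and let `K` be `≤_m^P`-complete.
Consider the set `C` of all `(1, 0^m, u)` such that `0^m` has a witness `y < u`, and all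
`(2, x, ws)` such that `ws` is a list of length at least `|x|^r` whose `m`-th entry is a witness of
`0^m` or `none`, and `x ∈ K` or there is `m` such that `0^m` has a witness smaller than `ws_m` (or
any witness, if `ws_m = none`).  `C` is `≤_T^P`-complete: find the least witnesses of all `0^m`,
`m < |x|^r`, by binary search, then ask `(2, x, ws)`.  Let `f` be a many-one reduction of the
questions `whether 0^n has a witness y < U with initial segment p` to `C`.  To find the least
witness of `0^n`, walk through the tree of possible witnesses level by level and apply `f` to these
questions.  If the answer is `(1, 0^m, u)` for several `p` and the same `m`, only the one with the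
largest `u` has to be kept.  If it is `(2, x', ws)` with `n < |ws|`, then either `ws` contains a
witness of `0^n`, so that `U` can be lowered, or all other nodes can be thrown away.  If it is
`(2, x', ws)` with `|ws| ≤ n`, then `|x'| ≤ n^(1/r)` and the question is decided by exhaustive
search.  Finally, for a machine with an `NP` oracle, apply this to the verifier that checks
transcripts of its computation: in the least transcript all answers are correct.

Definitions: machines, `Accepts`, `Halts`, `TuringComplete`, `ManyOneComplete` are in
`Lib_helper74/CKF/Defs.lean`; the exponential time classes are in `Lib_helper74/NF/ClassesE.lean`.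
-/

set_option autoImplicit false

namespace Pool.Agent.Results.MP_675993_lc.CollapseMakesENPEasy

open Pool.Agent.CK

theorem result (O : Lang) (hneg : ∀ C, TuringComplete O C → ManyOneComplete O C)
    (L : Lang) (hL : InENP O L) (ε : ℝ) (hε : 0 < ε) : InDTIMEdouble O ε L := by
  obtain ⟨B, hB, c, k, hc⟩ := hL
  obtain ⟨p, a, hp⟩ := Pool.Agent.CKP.enp_sub hneg hε hB c k
  refine ⟨p, a, fun x => ?_⟩
  obtain ⟨t, h1, h2, h3⟩ := hp x
  exact ⟨t, h1, h2, h3.trans (hc x).2⟩

end Pool.Agent.Results.MP_675993_lc.CollapseMakesENPEasy
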