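import Pool.Agent.Lib_helper74.KY.F.Main

/-!
# MP_675993_lc: a consequence of the negated form of Q1, and of weaker collapses

If every language that is `≤_T^P`-complete for `NP` is complete for `NP` under truth-table
reductions with few alternations (in particular: if it is `≤_m^P`-complete, the negated form of Q1;
or complete for positive, conjunctive, disjunctive or bounded truth-table reductions, or for
truth-table reductions with at most `|x| ^ β + b` queries, `β < 1`), then every language `L` of
`E^NP` is easy for very many input lengths, for every `ε > 0`: every interval `[n0, 2 ^ (ε n0)]`
with `n0` large contains a number `n` such that `L` is decided on the inputs of length at most `n`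
in time `2 ^ (O(n))` with an advice of length at most `2 ^ (ε n)`.  In particular
`E^NP ⊆ i.o.-E / 2 ^ (ε n)`.  The theorem holds relative to every oracle `O`; the oracle
`O = fun _ => false` gives the classical statement.

Proof idea.  Let `R` be a verifier for tally inputs `0^m` whose least witnesses determine `L`: the
value `L x` can be read in the least witness of `0^m`, `m < 2 ^ (|x| + 1)` the number of `x` (the
least accepting transcript of a machine with an `NP` oracle is the right one).  Replace `R` by the
nested verifier: a witness for `0^m` is a sequence of blocks for `0, ..., m`, with a fixed number of
bits for each block, and each block is a witness of `R` or `none`.  So the least witness of `0^m`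
consists of the first bits of one real number `ρ`, and the question whether `0^m` has a witness
`< u` is the question whether `ρ < u / 2 ^ (ℓ m)`.  Call a list `ws` correct if its `m`-th entry is
the least witness of `0^m`, for all `m < |ws|`.  Let `K` be `≤_m^P`-complete, and for a constant
`r` let `C_r` be the set of all `(1, 0^m, u)` such that `0^m` has a witness smaller than `u`, and
all `(2, x, ws)` with `|ws| ≥ |x| ^ r` such that `ws` is not correct (some entry is not a witness,
or there is a smaller one) or `x ∈ K`.  `C_r` is `≤_T^P`-complete for `NP`: find the correct list by
binary search, then ask `(2, x, ws)`.

(1) Keys.  By hypothesis `K ≤_tt^P C_r` for `r = 3 (c + 1)`, where `1 / c < ε`.  If one of the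
queries of `z` is `(2, x, ws)` with `ws` correct and `|ws| ≥ 2 (|z| + 2) ^ c`, then `z` is a key: it
is an advice from which `L x` can be computed for all `x` with `2 ^ |x| ≤ (|z| + 2) ^ c`, in
time polynomial in `|z|`.

(2) No keys.  Suppose that there are no keys `z` with `m0 ≤ |z| ≤ 2 ^ m0`.  Then every instance `y`
of `K` with `|y| ≤ 2 ^ m0` is decided in time polynomial in `2 ^ m0` if the correct list `T` of
length polynomial in `|y|` is given: a query `(1, 0^m, u)` is decided by `T`; a query `(2, x, ws)`
with `ws` not correct (this is seen by comparison with `T`) is answered yes; otherwise
`|x| ^ r ≤ |ws| < 2 (|y| + 2) ^ c`, so `|x| + 2 ≤ √(|y| + 2)`, and the question is whether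
`x ∈ K`: recursion.  Instances shorter than `m0` are decided by exhaustive search.

(3) The least witness of `0^n` is found from the correct list `T` of length `n`.  Take `r'` so large
that (2) decides an instance `x` with `|x| ^ r' ≤ n` from `T`, and consider a reduction with few
alternations to `C_r'` of the questions `whether 0^n has a witness < U in a given set A of nodes`.
Walk through the tree of possible witnesses level by level, with a list of nodes such that one of
them contains a witness `< U` if there is any.  Let the list have `K` nodes, and let `A_j` be the set
of the nodes in the list for whose positions the bit `j` is `1`, `j < k = O(log K)`.  Consider the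
queries for `A_1, ..., A_k`.  A query `(2, x, ws)` with `n < |ws|` has as `n`-th entry a witness
`< U`, or if there is any witness `< U` then `ws` is not correct and the answer is yes; a query
`(2, x, ws)` with `|ws| ≤ n` is decided by `T` and (2); and all queries `(1, 0^m, u)` compare the
same number `ρ` with thresholds.  So there are polynomially many candidates for the answers to
all queries, one for each position of `ρ`, and they form an increasing sequence.  Along this sequence
the decision on `A_j` changes at most `(p K) ^ β + b` times, where `p` is the number of bits for
a node.  So the vector of the decisions has at most `k ((p K) ^ β + b) + 1` values, and this is less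
than `K`, if `K` is larger than a certain polynomial in `p`.  So for some position `i` the vector of
the bits of `i` is not among these values, and the node at the position `i` can be thrown away: if it
were the only one that contains a witness `< U`, then the vector of the decisions would be the vector
of the bits of `i`.  So the number of nodes stays polynomial.

(4) So if there are no keys `z` with `m0 ≤ |z| ≤ 2 ^ m0`, then all correct lists up to the length
`2 (2 ^ m0 + 2) ^ c + 2` are computed one after the other, in time polynomial in `2 ^ m0`, and no
advice is needed for the input length `c m0`.  With `m0` about `2 ^ (n0 / c)` both cases give a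
length `n` in `[n0, 2 ^ (ε n0)]`.

Definitions: machines, `Halts`, `Accepts`, `InNP`, `TuringComplete` are in
`Lib_helper74/CKF/Defs.lean`, `InENP` is in `Lib_helper74/NF/ClassesE.lean`, `code` is in
`Lib_helper74/KY/ClassesB.lean`, `FewAltComplete` is in `Lib_helper74/KY/ClassesF.lean`,
`InOftenEadvice` is in `Lib_helper74/KY/ClassesO.lean`.  The special cases are the theorems
`fewAlt_of_queries`, `fewAlt_of_btt`, `fewAlt_of_positive` in `Lib_helper74/KY/F/Main.lean`.
-/

set_option autoImplicit false

namespace Pool.Agent.Results.MP_675993_lc.CollapseToFewAlternations

open Pool.Agent.CK

theorem result (O : Lang) (hneg : ∀ C, TuringComplete O C → FewAltComplete O C)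
    (L : Lang) (hL : InENP O L) (ε : ℝ) (hε : 0 < ε) : InOftenEadvice O ε L :=
  Pool.Agent.CKP.often_f hneg ε L hε hL

end Pool.Agent.Results.MP_675993_lc.CollapseToFewAlternations
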